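import Pool.Agent.Lib.MP_a3f376_nt.Final

/-! Lower bound with exponent three halves for the discrepancy of the van der Corput - Kronecker
hybrid sequence. -/

namespace Pool.Agent.Results.MP_a3f376_nt.ThreeHalves

open Pool.Agent.Lib.MP_a3f376_nt

/-- The two-dimensional hybrid sequence `z_n = (x_n, {n α})`, `x_n` the base two radical inverse.

1. There is an absolute `c > 0` such that for EVERY real `α` there are infinitely many `N` for
which some anchored box `[0,a) × [0,b)` has local discrepancy at least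
`c (log N)^(3/2) / N` for the first `N` points (same format as the problem statement, with
`3/2` in place of `2`).

2. If `α` is of finite Diophantine type (`|q α - p| ≥ c' / q ^ κ`), then with `c > 0` depending
on `κ` only, every large `X` has some `N ≤ X` with a box whose unnormalised local discrepancy is
at least `c (log X)^(3/2)`.

3. The second statement for `α = √2`. -/
theorem result :
    (∃ c : ℝ, 0 < c ∧ ∀ α : ℝ, ∀ M : ℕ, ∃ N : ℕ, M < N ∧
      ∃ a b : ℝ, 0 ≤ a ∧ a ≤ 1 ∧ 0 ≤ b ∧ b ≤ 1 ∧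
        c * (Real.log (N : ℝ)) ^ (3 / 2 : ℝ) / (N : ℝ) ≤
          |(((Finset.range N).filter (fun n : ℕ =>
              (∑ i ∈ Finset.range (n + 1),
                  ((n / 2 ^ i % 2 : ℕ) : ℝ) / (2 : ℝ) ^ (i + 1)) < a ∧
              Int.fract ((n : ℝ) * α) < b)).card : ℝ) / (N : ℝ) - a * b|) ∧
    (∀ κ : ℕ, ∃ c : ℝ, 0 < c ∧ ∀ α c' : ℝ, 0 < c' →
      (∀ q : ℕ, 0 < q → ∀ p : ℤ, c' / (q : ℝ) ^ κ ≤ |(q : ℝ) * α - p|) →
      ∀ᶠ X : ℝ in Filter.atTop, ∃ N : ℕ, (N : ℝ) ≤ X ∧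
        ∃ a b : ℝ, 0 ≤ a ∧ a ≤ 1 ∧ 0 ≤ b ∧ b ≤ 1 ∧
          c * (Real.log X) ^ (3 / 2 : ℝ) ≤
            |(((Finset.range N).filter (fun n : ℕ =>
                (∑ i ∈ Finset.range (n + 1),
                    ((n / 2 ^ i % 2 : ℕ) : ℝ) / (2 : ℝ) ^ (i + 1)) < a ∧
                Int.fract ((n : ℝ) * α) < b)).card : ℝ) - N * a * b|) ∧
    (∃ c : ℝ, 0 < c ∧ ∀ᶠ X : ℝ in Filter.atTop, ∃ N : ℕ, (N : ℝ) ≤ X ∧
        ∃ a b : ℝ, 0 ≤ a ∧ a ≤ 1 ∧ 0 ≤ b ∧ b ≤ 1 ∧
          c * (Real.log X) ^ (3 / 2 : ℝ) ≤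
            |(((Finset.range N).filter (fun n : ℕ =>
                (∑ i ∈ Finset.range (n + 1),
                    ((n / 2 ^ i % 2 : ℕ) : ℝ) / (2 : ℝ) ^ (i + 1)) < a ∧
                Int.fract ((n : ℝ) * Real.sqrt 2) < b)).card : ℝ) - N * a * b|) := by
  refine ⟨?_, ?_, ?_⟩
  · obtain ⟨c, hc, H⟩ := io_main
    refine ⟨c, hc, fun α M => ?_⟩
    obtain ⟨N, hN, a, b, ha0, ha1, hb0, hb1, hbig⟩ := H α M
    refine ⟨N, hN, a, b, ha0, ha1, hb0, hb1, ?_⟩
    have hNpos : (0 : ℝ) < N := by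
      have : 0 < N := by omega
      exact_mod_cast this
    have e : ((cnt α a b N : ℝ) / N - a * b) = ((cnt α a b N : ℝ) - N * a * b) / N := by
      field_simp
    have h2 : c * (Real.log (N : ℝ)) ^ (3 / 2 : ℝ) / (N : ℝ)
        ≤ |(cnt α a b N : ℝ) / N - a * b| := by
      rw [e, abs_div, abs_of_pos hNpos]
      exact div_le_div_of_nonneg_right hbig hNpos.le
    exact h2
  · intro κ
    obtain ⟨c, hc, H⟩ := ev_main κ
    exact ⟨c, hc, fun α c' hc' hα => H α c' hc' hα⟩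
  · obtain ⟨c, hc, H⟩ := ev_main 1
    exact ⟨c, hc, H (Real.sqrt 2) (1 / 4) (by norm_num) ftype_sqrt_two⟩

end Pool.Agent.Results.MP_a3f376_nt.ThreeHalves
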